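import Mathlib
import Pool.Agent.HO.ExtF

set_option linter.all false
set_option autoImplicit false

/-!
# MP_c33da0_al: one-relator groups of height at most one and short span

`p` is a power of a primitive element (image of a letter under an automorphism) of the free group on
the letters a_0, .., a_n (left summand) and s_1, .., s_k (right summand), and becomes trivial when
all letters a_i are deleted (`kill`). `relE n k p` is the word p with a_i replaced by t^i a t^-i, a
word in the k + 2 generators a, t, s_1, .., s_k. `SameFiniteImages G H` : every finite group is an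
image of G if and only if it is an image of H. `ex n k p i` is the exponent sum of the letter a_i
in p, and `outJ n k j p` is p with a_j and a_1, .., a_(n-1) deleted.
-/

namespace Pool.Agent.Results.MP_c33da0_al.ShortSpan

open Pool.Agent.HO

/-- If the span n is one or two and the group has the finite images of a free group of finite rank
then it is free, unless n = 2, the exponent vector of a_0, a_1, a_2 in p is a unit vector (up to
sign) at an end j, and p becomes trivial when a_j and a_1 are deleted. -/
theorem result (n k : ℕ) (hn : n = 1 ∨ n = 2)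
    (φ : FreeGroup (Fin (n + 1) ⊕ Fin k) ≃* FreeGroup (Fin (n + 1) ⊕ Fin k)) (e : ℤ)
    (hkill : kill n k ((φ (FreeGroup.of (Sum.inl 0))) ^ e) = 1) (d : ℕ)
    (hs : SameFiniteImages
      (PresentedGroup ({relE n k ((φ (FreeGroup.of (Sum.inl 0))) ^ e)} :
        Set (FreeGroup (Fin (k + 2))))) (FreeGroup (Fin d))) :
    (∃ l : ℕ, Nonempty
      (PresentedGroup ({relE n k ((φ (FreeGroup.of (Sum.inl 0))) ^ e)} :
        Set (FreeGroup (Fin (k + 2)))) ≃* FreeGroup (Fin l))) ∨
    (n = 2 ∧ ∃ (j : Fin (n + 1)) (ε : ℤ), (j = 0 ∨ j = Fin.last n) ∧ (ε = 1 ∨ ε = -1) ∧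
      (∀ i, ex n k ((φ (FreeGroup.of (Sum.inl 0))) ^ e) i = if i = j then ε else 0) ∧
      outJ n k j ((φ (FreeGroup.of (Sum.inl 0))) ^ e) = 1) := by
  rcases span_main n k (by omega) φ e hkill d hs with h | ⟨j, ε, h1, h2, h3, h4, h5⟩
  · exact Or.inl h
  · refine Or.inr ⟨by omega, j, ε, ?_, h1, h2, h3⟩
    rcases h5 with h | h | h
    · exact Or.inl h
    · exact Or.inr h
    · exfalso; omega

end Pool.Agent.Results.MP_c33da0_al.ShortSpan
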